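import Pool.Agent.H13.LK.Stmts

/-!
# Labels of the pieces of a partition

Row MIXL of the board lk2 (helper13).
-/

set_option autoImplicit false

namespace Pool.Agent.H1.LK

open Finset Real
open Pool.Agent.H49.Ent Pool.Agent.H32.Dense Pool.STK Pool.KA Pool.KSAT Pool.K2S Pool.LK

/-- Conditional entropies given `(Z, c)` are means over the pieces. -/
theorem CH_pieces {Ω S T K : Type} [Fintype Ω] [Fintype K] {p : Ω → ℝ} (hp : ∀ ω, 0 ≤ p ω)
    (X : Ω → S) (Z : Ω → T) (c : Ω → K) :
    CH p X (fun ω => (Z ω, c ω)) =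
      ∑ k, law p c k * CH (Pool.Agent.H49.Ent.cond p c k) X Z := by
  classical
  have key : ∀ {S : Type} (X : Ω → S), CH p X c =
      ∑ k, law p c k * H (Pool.Agent.H49.Ent.cond p c k) X := by
    intro S X
    rw [CH_eq_sum hp X c]
    refine Finset.sum_subset (Finset.subset_univ _) fun k _ hk => ?_
    rw [law_eq_zero_of_notMem p c hk, zero_mul]
  have h1 := CH_chain hp X Z c
  rw [key, key] at h1
  have h2 : ∀ k, law p c k * CH (Pool.Agent.H49.Ent.cond p c k) X Z =
      law p c k * H (Pool.Agent.H49.Ent.cond p c k) (fun ω => (X ω, Z ω)) -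
        law p c k * H (Pool.Agent.H49.Ent.cond p c k) Z := by
    intro k
    unfold CH
    ring
  rw [Finset.sum_congr rfl fun k _ => h2 k, Finset.sum_sub_distrib]
  linarith

open Classical in
/-- **MIXL.** -/
theorem mixl_thm : MIXLStmt := by
  intro m b J F K _ c h B
  have hp := F.isLaw
  -- a value of positive probability
  obtain ⟨k₀, hk₀⟩ : ∃ k, law F.p c k ≠ 0 := by
    by_contra hn
    push Not at hn
    have h1 : ∀ ω, F.p ω = 0 := by
      intro ω
      by_contra h0
      have h2 : 0 < F.p ω := lt_of_le_of_ne (hp.nonneg ω) (Ne.symm h0)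
      exact (law_pos hp.nonneg c h2).ne' (hn (c ω))
    have h2 := hp.sum_one
    rw [Finset.sum_eq_zero fun ω _ => h1 ω] at h2
    exact zero_ne_one h2
  set Bk : F.Ω → Fin m → ℕ := fun ω =>
    if hk : law F.p c (c ω) ≠ 0 then (B (c ω) hk).k ω else (B k₀ hk₀).k ω with hBk
  set BM : F.Ω → Fin m → Fin m → ℝ := fun ω =>
    if hk : law F.p c (c ω) ≠ 0 then (B (c ω) hk).M ω else (B k₀ hk₀).M ω with hBM
  set B' : Lbl F b := {
    k := Bk
    M := BM
    le := by
      intro ω i
      simp only [hBk]
      split_ifs with hk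
      · exact (B (c ω) hk).le ω i
      · exact (B k₀ hk₀).le ω i
    bd := by
      intro ω i j
      simp only [hBM]
      split_ifs with hk
      · exact (B (c ω) hk).bd ω i j
      · exact (B k₀ hk₀).bd ω i j
    inv := by
      intro ω
      simp only [hBM]
      split_ifs with hk
      · exact (B (c ω) hk).inv ω
      · exact (B k₀ hk₀).inv ω } with hB'
  refine ⟨B', ?_⟩
  have hlab : ∀ k (hk : law F.p c k ≠ 0) (ω : F.Ω), c ω = k → B'.lab ω = (B k hk).lab ω := by
    intro k hk ω hω
    subst hω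
    have e1 : B'.k ω = (B (c ω) hk).k ω := by
      simp only [hB', hBk]
      rw [dif_pos hk]
    have e2 : B'.M ω = (B (c ω) hk).M ω := by
      simp only [hB', hBM]
      rw [dif_pos hk]
    unfold Lbl.lab
    rw [e1, e2]
    rfl
  have hk' : ∀ k (hk : law F.p c k ≠ 0) (ω : F.Ω), c ω = k → B'.k ω = (B k hk).k ω := by
    intro k hk ω hω
    subst hω
    simp only [hB', hBk]
    rw [dif_pos hk]
  -- the entropy of the label
  have s1 := CH_le_add hp.nonneg B'.lab c F.Z
  have s2 : CH F.p B'.lab (fun ω => (c ω, F.Z ω)) = CH F.p B'.lab (fun ω => (F.Z ω, c ω)) := by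
    refine CH_congr hp.nonneg ?_ ?_ ?_ ?_
    · intro ω ω' _ _ hh
      exact (Prod.ext_iff.1 hh).1
    · intro ω ω' _ _ hh
      exact (Prod.ext_iff.1 hh).1
    · intro ω ω' _ _ hh
      exact Prod.ext (Prod.ext_iff.1 hh).2 (Prod.ext_iff.1 hh).1
    · intro ω ω' _ _ hh
      exact Prod.ext (Prod.ext_iff.1 hh).2 (Prod.ext_iff.1 hh).1
  rw [s2, CH_pieces hp.nonneg] at s1
  have s3 : ∀ k, law F.p c k * CH (Pool.Agent.H49.Ent.cond F.p c k) B'.lab F.Z +
      (∑ ω, (if c ω = k then F.p ω else 0) * ∑ i, ((J : ℝ) - B'.k ω i)) * Real.log 2 =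
      law F.p c k * (if hk : law F.p c k ≠ 0 then (B k hk).cost else 0) := by
    intro k
    by_cases hk : law F.p c k ≠ 0
    · rw [dif_pos hk]
      unfold Lbl.cost
      have e1 : CH (Pool.Agent.H49.Ent.cond F.p c k) B'.lab F.Z =
          CH (F.res c k (h k hk)).p (B k hk).lab (F.res c k (h k hk)).Z := by
        refine CH_congr (cond_nonneg hp.nonneg c k) ?_ ?_ (fun _ _ _ _ h => h)
          (fun _ _ _ _ h => h)
        · intro ω ω' hω hω' hh
          have a1 := ((cond_pos_iff hp.nonneg c k ω).1 hω).2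
          have a2 := ((cond_pos_iff hp.nonneg c k ω').1 hω').2
          have a3 := (Prod.ext_iff.1 hh).1
          simp only at a3
          rw [hlab k hk ω a1, hlab k hk ω' a2] at a3
          exact a3
        · intro ω ω' hω hω' hh
          have a1 := ((cond_pos_iff hp.nonneg c k ω).1 hω).2
          have a2 := ((cond_pos_iff hp.nonneg c k ω').1 hω').2
          have a3 := (Prod.ext_iff.1 hh).1
          simp only at a3
          rw [hlab k hk ω a1, hlab k hk ω' a2]
          exact a3
      have e2 : ∑ ω, (if c ω = k then F.p ω else 0) * ∑ i, ((J : ℝ) - B'.k ω i) =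
          law F.p c k * ∑ ω, (F.res c k (h k hk)).p ω * ∑ i, ((J : ℝ) - (B k hk).k ω i) := by
        rw [Finset.mul_sum]
        refine Finset.sum_congr rfl fun ω _ => ?_
        have e3 : (F.res c k (h k hk)).p ω = if c ω = k then F.p ω / law F.p c k else 0 := rfl
        rw [e3]
        by_cases hc : c ω = k
        · rw [if_pos hc, if_pos hc, hk' k hk ω hc]
          field_simp
        · rw [if_neg hc, if_neg hc]
          ring
      rw [e1, e2]
      ring
    · rw [dif_neg hk]
      push Not at hk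
      rw [hk, zero_mul, zero_mul, zero_add]
      have e2 : ∑ ω, (if c ω = k then F.p ω else 0) * ∑ i, ((J : ℝ) - B'.k ω i) = 0 := by
        refine Finset.sum_eq_zero fun ω _ => ?_
        by_cases hc : c ω = k
        · rw [if_pos hc]
          have h0 : F.p ω = 0 := by
            by_contra h0
            have h2 : 0 < F.p ω := lt_of_le_of_ne (hp.nonneg ω) (Ne.symm h0)
            have h3 := law_pos hp.nonneg c h2
            rw [hc, hk] at h3
            exact lt_irrefl _ h3
          rw [h0, zero_mul]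
        · rw [if_neg hc, zero_mul]
      rw [e2, zero_mul]
  have s4 : ∑ ω, F.p ω * ∑ i, ((J : ℝ) - B'.k ω i) =
      ∑ k, ∑ ω, (if c ω = k then F.p ω else 0) * ∑ i, ((J : ℝ) - B'.k ω i) := by
    rw [Finset.sum_comm]
    refine Finset.sum_congr rfl fun ω _ => ?_
    rw [Finset.sum_eq_single (c ω)]
    · rw [if_pos rfl]
    · intro k _ hk
      rw [if_neg hk.symm, zero_mul]
    · intro h'
      exact absurd (mem_univ _) h'
  have s5 : B'.cost = CH F.p B'.lab F.Z +
      (∑ ω, F.p ω * ∑ i, ((J : ℝ) - B'.k ω i)) * Real.log 2 := rfl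
  rw [s5, s4, ← Finset.sum_congr rfl fun k _ => s3 k, Finset.sum_add_distrib, ← Finset.sum_mul]
  linarith

end Pool.Agent.H1.LK
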