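import Pool.Agent.H13.LK.Stmts

/-!
# The trivial label

Row TRVL of the board lk2 (helper13).
-/

set_option autoImplicit false

namespace Pool.Agent.H1.LK

open Finset Real
open Pool.Agent.H49.Ent Pool.Agent.H32.Dense Pool.STK Pool.KA Pool.KSAT Pool.K2S Pool.LK

variable {m J : ℕ}

/-- The trivial label. -/
noncomputable def triv (F : Fam m J) {b : ℝ} (hb : 1 ≤ b) : Lbl F b where
  k := fun _ _ => 0
  M := fun _ i j => if i = j then 1 else 0
  le := fun _ _ => Nat.zero_le J
  bd := by
    intro ω i j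
    split_ifs
    · rw [abs_one]
      exact hb
    · rw [abs_zero]
      linarith
  inv := by
    intro ω
    refine ⟨fun i j => if i = j then 1 else 0, ?_, ?_⟩
    · intro i j
      dsimp only
      split_ifs
      · rw [abs_one]
        exact hb
      · rw [abs_zero]
        linarith
    · intro i l
      simp

theorem mco_one (x : Fin m → ℝ) : mco (fun i j => if i = j then (1 : ℝ) else 0) x = x := by
  funext i
  simp [mco]

theorem floor_near' {x y D : ℝ} (h : |x - y| ≤ D) : |((⌊x⌋ - ⌊y⌋ : ℤ) : ℝ)| ≤ D + 1 := by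
  rw [abs_le] at h
  push_cast
  rw [abs_le]
  have h1 := Int.floor_le x
  have h2 := Int.lt_floor_add_one x
  have h3 := Int.floor_le y
  have h4 := Int.lt_floor_add_one y
  constructor <;> linarith

theorem near_floor' {x y : ℝ} (h : ⌊x⌋ = ⌊y⌋) : |x - y| ≤ 1 := by
  have h1 := Int.floor_le x
  have h2 := Int.lt_floor_add_one x
  have h3 := Int.floor_le y
  have h4 := Int.lt_floor_add_one y
  rw [h] at h1 h2
  rw [abs_le]
  constructor <;> linarith

/-- **TRVL.** -/
theorem trvl_thm : TRVLStmt := by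
  intro m b hb
  have l7 : 0 ≤ Real.log (2 * 4 + 1) := Real.log_nonneg (by norm_num)
  refine ⟨2 * (m * Real.log (2 * 4 + 1)), by positivity, fun J F a ha => ?_⟩
  have hp := F.isLaw
  refine ⟨triv F hb, ?_⟩
  have e0 : (triv F hb).cost = CH F.p (triv F hb).lab F.Z + m * (J * Real.log 2) := by
    unfold Lbl.cost
    congr 1
    have : ∀ ω : F.Ω, ∑ i : Fin m, ((J : ℝ) - ((triv F hb).k ω i : ℕ)) = m * J := by
      intro ω
      simp [triv]
    rw [Finset.sum_congr rfl fun ω _ => by rw [this ω], ← Finset.sum_mul, hp.sum_one]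
    ring
  rw [e0]
  set U : F.Ω → Fin m → ℤ := fun ω i => ⌊F.u ω i⌋ with hU
  set D : F.Ω → Fin m → ℤ := fun ω i => ⌊F.d ω i⌋ with hD
  -- the label
  have a1 : CH F.p (triv F hb).lab F.Z ≤ CH F.p (fun ω => (U ω, D ω)) F.Z := by
    refine CH_mono_left hp.nonneg ?_
    intro ω ω' _ _ hh
    have h1 := (Prod.ext_iff.1 (Prod.ext_iff.1 hh).1)
    unfold Lbl.lab triv
    simp only [mco_one, Prod.mk.injEq, true_and]
    constructor
    · funext i
      have := congrFun h1.1 i
      simpa [flk, hU] using this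
    · funext i
      have := congrFun h1.2 i
      simpa [flk, hD] using this
  have a2 := CH_subadd hp.nonneg U D F.Z
  -- the direction
  have a3 : CH F.p D F.Z ≤ m * Real.log (2 * 4 + 1) := by
    have h := CH_le_vec hp.nonneg hp.sum_one D F.Z (fun _ => 4) ?_
    · rwa [Ex_const hp.sum_one] at h
    · intro ω ω' _ _ _ i
      have h1 := F.dir ω i
      have h2 := F.dir ω' i
      rw [abs_le] at h1 h2
      have h3 : |F.d ω i - F.d ω' i| ≤ 3 := by
        rw [abs_le]
        constructor <;> linarith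
      have h4 := floor_near' h3
      simp only [hD]
      linarith
  -- the position
  have b1 := CH_chain hp.nonneg U F.T F.Z
  have b2 := CH_chain hp.nonneg F.T U F.Z
  have b3 : CH F.p (fun ω => (U ω, F.T ω)) F.Z = CH F.p (fun ω => (F.T ω, U ω)) F.Z := by
    refine CH_congr hp.nonneg ?_ ?_ (fun _ _ _ _ h => h) (fun _ _ _ _ h => h)
    · intro ω ω' _ _ hh
      have h1 := (Prod.ext_iff.1 (Prod.ext_iff.1 hh).1)
      exact Prod.ext h1.2 h1.1
    · intro ω ω' _ _ hh
      have h1 := (Prod.ext_iff.1 (Prod.ext_iff.1 hh).1)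
      exact Prod.ext h1.2 h1.1
  have b4 : CH F.p F.T (fun ω => (F.l ω, F.Z ω)) ≤ CH F.p F.T (fun ω => (U ω, F.Z ω)) := by
    refine CH_mono_cond hp.nonneg ?_
    intro ω ω' _ _ hh
    have h1 := Prod.ext_iff.1 hh
    have h2 : F.u ω = F.u ω' := (Prod.ext_iff.1 h1.1).1
    refine Prod.ext ?_ h1.2
    simp only [hU, h2]
  -- given the time
  have c1 : CH F.p U (fun ω => (F.T ω, F.Z ω)) ≤
      CH F.p (F.X J) F.W + m * Real.log (2 * 4 + 1) := by
    refine (CH_le_add hp.nonneg U (F.X J) (fun ω => (F.T ω, F.Z ω))).trans ?_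
    have e1 : CH F.p (F.X J) (fun ω => (F.T ω, F.Z ω)) = CH F.p (F.X J) F.W := rfl
    rw [e1]
    have h := CH_le_vec hp.nonneg hp.sum_one U (fun ω => (F.X J ω, (F.T ω, F.Z ω))) (fun _ => 4) ?_
    · rw [Ex_const hp.sum_one] at h
      linarith
    · intro ω ω' _ _ hh i
      have h1 := Prod.ext_iff.1 hh
      have hX : F.X J ω i = F.X J ω' i := congrFun h1.1 i
      have hX' : ⌊(2 : ℝ) ^ J * F.x ω i⌋ = ⌊(2 : ℝ) ^ J * F.x ω' i⌋ := hX
      have hT : F.T ω = F.T ω' := (Prod.ext_iff.1 h1.2).1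
      have hn := near_floor' hX'
      have hpos : (0 : ℝ) < 2 ^ J := by positivity
      have hone : (1 : ℝ) ≤ 2 ^ J := one_le_pow₀ (by norm_num)
      have hn2 : |F.x ω i - F.x ω' i| ≤ 1 := by
        rw [← mul_sub, abs_mul, abs_of_pos hpos] at hn
        nlinarith [abs_nonneg (F.x ω i - F.x ω' i)]
      have ht : F.t ω = F.t ω' := by
        unfold Fam.t
        rw [hT]
      have ht0 : 0 ≤ F.t ω' ∧ F.t ω' ≤ 1 := by
        unfold Fam.t
        constructor
        · positivity
        · rw [div_le_one hpos]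
          exact_mod_cast (F.tim ω').le
      have h2 := F.dir ω i
      have h3 := F.dir ω' i
      have hx : ∀ ω, F.x ω i = F.u ω i + F.t ω * F.d ω i := fun _ => rfl
      rw [hx, hx, ht] at hn2
      rw [abs_le] at h2 h3 hn2
      have h5 : |F.u ω i - F.u ω' i| ≤ 3 := by
        rw [abs_le]
        constructor <;> nlinarith [h2.1, h2.2, h3.1, h3.2, hn2.1, hn2.2, ht0.1, ht0.2]
      have h4 := floor_near' h5
      simp only [hU]
      linarith
  have c2 : CH F.p (F.X J) F.W ≤ a * CH F.p (F.X J) F.W := by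
    have := CH_nonneg hp.nonneg (F.X J) F.W
    nlinarith
  have c3 : CH F.p U (fun ω => (F.T ω, F.Z ω)) = CH F.p U (fun ω => (F.T ω, F.Z ω)) := rfl
  linarith

end Pool.Agent.H1.LK
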